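import Pool.Agent.H54.KVA.Defs

/-!
# Inverse theorem for sums of dependent vectors with side information: statements

`X` and `Y` are random vectors in `[-1, 1] ^ d`, `b` is side information. The `K = N k` digits
are cut into `N` blocks of `k` digits; the context of a block is `b` together with the digits of
`X` and `Y` before the block.
-/

set_option autoImplicit false

namespace Pool.KVA

open Finset Real MeasureTheory
open Pool.Agent.H49.Ent Pool.Agent.H32.Dense Pool.STK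

/-- Mutual information given `b`. -/
noncomputable def MI {Ω S T β : Type} [Fintype Ω] (p : Ω → ℝ) (A : Ω → S) (B : Ω → T)
    (b : Ω → β) : ℝ := CH p A b + CH p B b - CH p (fun ω => (A ω, B ω)) b

/-- The context of the block number `r`. -/
noncomputable def ctx {Ω β : Type} {d : ℕ} (b : Ω → β) (X Y : Ω → Fin d → ℝ) (k r : ℕ) (ω : Ω) :
    β × (Fin d → ℤ) × (Fin d → ℤ) := (b ω, Fl X (r * k) ω, Fl Y (r * k) ω)

/-- The sum of two vectors on the same space. -/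
def ad {Ω : Type} {d : ℕ} (X Y : Ω → Fin d → ℝ) (ω : Ω) : Fin d → ℝ := fun i => X ω i + Y ω i

/-- CEX. Conditional entropy as a mean. -/
def CEXStmt : Prop :=
  ∀ (Ω S T : Type) [Fintype Ω] (p : Ω → ℝ) (X : Ω → S) (Z : Ω → T), IsLaw p →
    CH p X Z = Ex p (fun ω => H (cond p Z (Z ω)) X) ∧ ∀ ω, 0 < p ω → IsLaw (cond p Z (Z ω))

/-- IDX. The dependences of the blocks add up to at most the total dependence. -/
def IDXStmt : Prop :=
  ∀ (d : ℕ) (Ω β : Type) [Fintype Ω] (p : Ω → ℝ) (X Y : Ω → Fin d → ℝ) (b : Ω → β) (k N : ℕ),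
    IsLaw p → (∀ r, 0 ≤ MI p (Fl X ((r + 1) * k)) (Fl Y ((r + 1) * k)) (ctx b X Y k r)) ∧
    ∑ r ∈ Finset.range N, MI p (Fl X ((r + 1) * k)) (Fl Y ((r + 1) * k)) (ctx b X Y k r) ≤
      MI p (Fl X (N * k)) (Fl Y (N * k)) b

/-- SMA. The losses of the blocks add up to at most the total loss. -/
def SMAStmt : Prop :=
  ∀ d : ℕ, ∃ C ≥ 0, ∀ (Ω β : Type) [Fintype Ω] (p : Ω → ℝ) (X Y : Ω → Fin d → ℝ) (b : Ω → β)
    (k N : ℕ), IsLaw p → (∀ ω i, |X ω i| ≤ 1) →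
    ∑ r ∈ Finset.range N, (CH p (Fl (ad X Y) ((r + 1) * k)) (ctx b X Y k r) -
        CH p (Fl X ((r + 1) * k)) (ctx b X Y k r)) ≤
      CH p (Fl (ad X Y) (N * k)) b - CH p (Fl X (N * k)) b +
        MI p (Fl X (N * k)) (Fl Y (N * k)) b + C * (N + 1)

/-- PIN. Pinsker's inequality and continuity of the entropy. -/
def PINStmt : Prop :=
  ∀ (Ω S₁ S₂ T : Type) [Fintype Ω] (p : Ω → ℝ) (A : Ω → S₁) (B : Ω → S₂) (f : S₁ → S₂ → T)
    (F : Finset T), IsLaw p → F.Nonempty → (∀ ω ω', f (A ω) (B ω') ∈ F) →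
    H (pr2 p p) (fun w => f (A w.1) (B w.2)) ≤ H p (fun ω => f (A ω) (B ω)) + Real.log 2 +
      Real.sqrt (H p A + H p B - H p (fun ω => (A ω, B ω))) * Real.log F.card

/-- PIZ. The same for digits of vectors. -/
def PIZStmt : Prop :=
  ∀ d : ℕ, ∃ C ≥ 0, ∀ (Ω : Type) [Fintype Ω] (p : Ω → ℝ) (X Y : Ω → Fin d → ℝ) (k : ℕ),
    IsLaw p → (∀ ω i, 0 ≤ X ω i ∧ X ω i < 1) → (∀ ω i, 0 ≤ Y ω i ∧ Y ω i < 1) →
    H (pr2 p p) (Fl (Ad X Y) k) ≤ H p (Fl (ad X Y) k) + C +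
      C * (k + 1) * Real.sqrt (H p (Fl X k) + H p (Fl Y k) - H p (fun ω => (Fl X k ω, Fl Y k ω)))

/-- ZOM. Zooming in under a law for which the first digits are constant. -/
def ZOMStmt : Prop :=
  ∀ (d : ℕ) (Ω : Type) [Fintype Ω] (p : Ω → ℝ) (X Y : Ω → Fin d → ℝ) (s k : ℕ), IsLaw p →
    (∀ ω ω', 0 < p ω → 0 < p ω' → Fl X s ω = Fl X s ω') →
    (∀ ω ω', 0 < p ω → 0 < p ω' → Fl Y s ω = Fl Y s ω') →
    H p (Fl (zo s X) k) = H p (Fl X (s + k)) ∧ H p (Fl (zo s Y) k) = H p (Fl Y (s + k)) ∧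
    H p (fun ω => (Fl (zo s X) k ω, Fl (zo s Y) k ω)) =
      H p (fun ω => (Fl X (s + k) ω, Fl Y (s + k) ω)) ∧
    H p (Fl (ad (zo s X) (zo s Y)) k) = H p (Fl (ad X Y) (s + k))

/-- 2B. The inverse theorem with side information and approximate independence. -/
def KV2BStmt : Prop :=
  ∀ d : ℕ, ∃ C ≥ 0, ∀ (Ω β : Type) [Fintype Ω] (p : Ω → ℝ) (X Y : Ω → Fin d → ℝ) (b : Ω → β)
    (g k N : ℕ) (v : ℕ → β × (Fin d → ℤ) × (Fin d → ℤ) → ℕ → Fin d → Fin d → ℝ)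
    (lam : ℕ → β × (Fin d → ℤ) × (Fin d → ℤ) → ℕ → Fin d → ℝ) (ρ : ℝ),
    IsLaw p → (∀ ω i, |X ω i| ≤ 1) → 1 ≤ g → 0 < ρ → ρ ≤ 1 →
    (∀ r ω j, 0 < p ω → Adp (cond p (ctx b X Y k r) (ctx b X Y k r ω)) (zo (r * k) Y) j
      (v r (ctx b X Y k r ω) j) (lam r (ctx b X Y k r ω) j)) →
    ∑ r ∈ Finset.range N, Ex p (fun ω => ∑ j ∈ Finset.Icc g k,
      max 0 ((big ρ (lam r (ctx b X Y k r ω) j)).card * (g * Real.log 2) -
        loc (cond p (ctx b X Y k r) (ctx b X Y k r ω)) (v r (ctx b X Y k r ω) j)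
          (big ρ (lam r (ctx b X Y k r ω) j)) (zo (r * k) X) j g)) ≤
      g * 4 ^ g * (CH p (Fl (ad X Y) (N * k)) b - CH p (Fl X (N * k)) b +
        MI p (Fl X (N * k)) (Fl Y (N * k)) b + C * (N + 1) +
        C * (k + 1) * Real.sqrt (N * MI p (Fl X (N * k)) (Fl Y (N * k)) b)) +
      N * ((k + g) * (d * Real.log (1 / ρ) + C))

end Pool.KVA
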