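import Pool.Agent.H54.KVA.Defs
import Pool.Agent.H40.STK.PRD

/-!
# The inverse theorem from the inequality at one row
-/

set_option autoImplicit false

namespace Pool.KVA

open Finset Real MeasureTheory
open Pool.Agent.H49.Ent Pool.Agent.H32.Dense Pool.STK

namespace A2

lemma tel_sum (D : ℕ → ℝ) (g m : ℕ) :
    ∑ j ∈ Finset.Icc g (g + m), (D j - D (j - g)) =
      ∑ i ∈ Finset.range g, (D (m + 1 + i) - D i) := by
  induction m with
  | zero =>
    rw [Nat.add_zero, Finset.Icc_self, Finset.sum_singleton, Nat.sub_self]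
    have := Finset.sum_range_sub D g
    rw [← this]
    refine Finset.sum_congr rfl fun i _ => ?_
    rw [Nat.zero_add, Nat.add_comm 1 i]
  | succ m ih =>
    rw [← Nat.add_assoc, Finset.sum_Icc_succ_top (by omega), ih]
    have h := Finset.sum_range_sub (fun i => D (m + 1 + i)) g
    have e : g + m + 1 - g = m + 1 := by omega
    rw [e]
    have h2 : ∑ i ∈ Finset.range g, (D (m + 1 + 1 + i) - D i) =
        ∑ i ∈ Finset.range g, (D (m + 1 + i) - D i) +
          ∑ i ∈ Finset.range g, (D (m + 1 + (i + 1)) - D (m + 1 + i)) := by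
      rw [← Finset.sum_add_distrib]
      refine Finset.sum_congr rfl fun i _ => ?_
      rw [show m + 1 + 1 + i = m + 1 + (i + 1) by omega]
      ring
    rw [h2, h]
    rw [show m + 1 + g = g + m + 1 by omega, Nat.add_zero]

end A2

theorem kv2a_thm (hROW : ROWStmt) (hT2 : T2Stmt) (hKVN : KVNStmt) : KV2AStmt := by
  intro d
  obtain ⟨CR, hCR, hR⟩ := hROW d
  obtain ⟨CT, hCT, hT⟩ := hT2 d
  obtain ⟨CK, hCK, hK⟩ := hKVN d
  refine ⟨CK + CR + 3 * CT, by positivity, ?_⟩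
  intro Ω₁ Ω₂ _ _ p₁ p₂ X Y g k v lam ρ hp₁ hp₂ hg hρ hρ1 hA
  have hn : IsLaw (prd p₂ : (Fin (4 ^ g) → Ω₂) → ℝ) := (prd_thm Ω₂ (Fin (4 ^ g)) Unit p₂ hp₂).1
  set D : ℕ → ℝ := fun j => H (ps p₁ p₂ (4 ^ g)) (Fl (Sm (4 ^ g) X Y) j) - H p₁ (Fl X j) with hD
  set A : ℝ := H (pr2 p₁ p₂) (Fl (Ad X Y) k) - H p₁ (Fl X k) with hAdef
  have hlog : 0 ≤ Real.log (1 / ρ) := Real.log_nonneg (by rw [le_div_iff₀ hρ]; linarith)
  have t1 : ∀ j, -CT ≤ D j := by
    intro j
    have h := (hT Ω₁ (Fin (4 ^ g) → Ω₂) p₁ (prd p₂) X (fun w i => ∑ l, Y (w l) i) j j (v 0) ∅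
      hp₁ hn (hA 0).on le_rfl).1
    have e : H (ps p₁ p₂ (4 ^ g)) (Fl (Sm (4 ^ g) X Y) j) =
        H (pr2 p₁ (prd p₂ : (Fin (4 ^ g) → Ω₂) → ℝ))
          (Fl (Ad X (fun w i => ∑ l, Y (w l) i)) j) := rfl
    simp only [hD]
    rw [e]
    linarith
  have t2 : ∀ j j', j' ≤ j → D j' ≤ D j + CT := by
    intro j j' hj
    have h := (hT Ω₁ (Fin (4 ^ g) → Ω₂) p₁ (prd p₂) X (fun w i => ∑ l, Y (w l) i) j j' (v 0) ∅
      hp₁ hn (hA 0).on hj).2.1
    have e : ∀ j, H (ps p₁ p₂ (4 ^ g)) (Fl (Sm (4 ^ g) X Y) j) =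
        H (pr2 p₁ (prd p₂ : (Fin (4 ^ g) → Ω₂) → ℝ))
          (Fl (Ad X (fun w i => ∑ l, Y (w l) i)) j) := fun j => rfl
    simp only [hD]
    rw [e, e]
    linarith
  have hA0 : 0 ≤ A + CT := by
    have h := (hT Ω₁ Ω₂ p₁ p₂ X Y k k (v 0) ∅ hp₁ hp₂ (hA 0).on le_rfl).1
    simp only [hAdef]
    linarith
  have hDk : D k ≤ 4 ^ g * (A + CK) := by
    have h := hK Ω₁ Ω₂ p₁ p₂ X Y (4 ^ g) k hp₁ hp₂
    simp only [hD, hAdef]
    push_cast at h
    exact h
  refine ⟨by linarith, ?_⟩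
  have row : ∀ j ∈ Finset.Icc g k, max 0 ((big ρ (lam j)).card * (g * Real.log 2) -
        loc p₁ (v j) (big ρ (lam j)) X j g) ≤
      (D j - D (j - g)) + (CR + CT + d * Real.log (1 / ρ)) := by
    intro j hj
    have hj' := (Finset.mem_Icc.mp hj).1
    have h := hR Ω₁ Ω₂ p₁ p₂ X Y g j (v j) (lam j) ρ hp₁ hp₂ hj' hρ hρ1 (hA j)
    have hc : ((big ρ (lam j)).card : ℝ) ≤ d := by
      have := Finset.card_le_univ (big ρ (lam j))
      rw [Fintype.card_fin] at this
      exact_mod_cast this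
    have h1 := mul_le_mul_of_nonneg_right hc hlog
    have h2 := t2 j (j - g) (Nat.sub_le _ _)
    have h3 : 0 ≤ (d : ℝ) * Real.log (1 / ρ) := by positivity
    unfold inc at h
    refine max_le ?_ ?_
    · linarith
    · simp only [hD] at h2 ⊢
      nlinarith [h, h1]
  rcases Nat.lt_or_ge k g with hkg | hkg
  · rw [Finset.Icc_eq_empty (by omega), Finset.sum_empty]
    have h3 : 0 ≤ (d : ℝ) * Real.log (1 / ρ) := by positivity
    have : 0 ≤ A + (CK + CR + 3 * CT) := by linarith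
    positivity
  · obtain ⟨m, rfl⟩ := Nat.exists_eq_add_of_le hkg
    refine (Finset.sum_le_sum row).trans ?_
    rw [Finset.sum_add_distrib, A2.tel_sum, Finset.sum_const, nsmul_eq_mul, Nat.card_Icc]
    have e1 : ∑ i ∈ Finset.range g, (D (m + 1 + i) - D i) ≤
        g * (4 ^ g * (A + CK) + 2 * CT) := by
      calc ∑ i ∈ Finset.range g, (D (m + 1 + i) - D i) ≤
          ∑ _i ∈ Finset.range g, (4 ^ g * (A + CK) + 2 * CT) := by
            refine Finset.sum_le_sum fun i hi => ?_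
            have hi' := Finset.mem_range.mp hi
            have h1 := t2 (g + m) (m + 1 + i) (by omega)
            have h2 := t1 i
            linarith
        _ = g * (4 ^ g * (A + CK) + 2 * CT) := by
            rw [Finset.sum_const, Finset.card_range, nsmul_eq_mul]
    have e2 : ((g + m + 1 - g : ℕ) : ℝ) = m + 1 := by
      rw [show g + m + 1 - g = m + 1 by omega]
      push_cast
      ring
    rw [e2]
    have hg' : (1 : ℝ) ≤ g := by exact_mod_cast hg
    have hm' : (0 : ℝ) ≤ m := Nat.cast_nonneg m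
    have hd' : (0 : ℝ) ≤ d := Nat.cast_nonneg d
    have e3 : ((m : ℝ) + 1) * (CR + CT + d * Real.log (1 / ρ)) ≤
        (((g + m : ℕ) : ℝ) + g) * (CR + CT + d * Real.log (1 / ρ)) := by
      refine mul_le_mul_of_nonneg_right ?_ (by positivity)
      push_cast
      linarith
    have e4 : (g : ℝ) * (4 ^ g * (A + CK)) ≤ g * 4 ^ g * (A + (CK + CR + 3 * CT)) := by
      rw [← mul_assoc]
      refine mul_le_mul_of_nonneg_left ?_ (by positivity)
      linarith
    have e5 : (g : ℝ) * (2 * CT) ≤ (((g + m : ℕ) : ℝ) + g) * (CK + 2 * CT) := by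
      push_cast
      nlinarith [mul_nonneg hm' hCT, mul_nonneg hm' hCK, mul_nonneg (by linarith : (0:ℝ) ≤ g) hCK,
        mul_nonneg (by linarith : (0:ℝ) ≤ g) hCT]
    nlinarith [e1, e3, e4, e5]

end Pool.KVA
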