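import Pool.Agent.H54.KVA.Defs2
import Pool.Agent.H58.STK.Base

/-!
# The inverse theorem with side information
-/

set_option autoImplicit false

namespace Pool.KVA

open Finset Real MeasureTheory
open Pool.Agent.H49.Ent Pool.Agent.H32.Dense Pool.STK

namespace B2

/-- The mean of a square root. -/
lemma ex_sqrt {Ω : Type} [Fintype Ω] {p : Ω → ℝ} (hp : IsLaw p) (f : Ω → ℝ)
    (hf : ∀ ω, 0 < p ω → 0 ≤ f ω) :
    Ex p (fun ω => Real.sqrt (f ω)) ≤ Real.sqrt (Ex p f) := by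
  set m : ℝ := Ex p (fun ω => Real.sqrt (f ω)) with hm
  have h1 : 0 ≤ Ex p (fun ω => (Real.sqrt (f ω) - m) ^ 2) :=
    Ex_nonneg hp.nonneg fun ω _ => sq_nonneg _
  have h2 : Ex p (fun ω => (Real.sqrt (f ω) - m) ^ 2) = Ex p f - m ^ 2 := by
    have e : ∀ ω, p ω * (Real.sqrt (f ω) - m) ^ 2 =
        p ω * f ω - 2 * m * (p ω * Real.sqrt (f ω)) + p ω * m ^ 2 := by
      intro ω
      rcases (hp.nonneg ω).eq_or_lt with h0 | h0
      · rw [← h0]
        ring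
      · have := Real.sq_sqrt (hf ω h0)
        linear_combination (p ω) * this
    unfold Ex
    rw [Finset.sum_congr rfl fun ω _ => e ω, Finset.sum_add_distrib, Finset.sum_sub_distrib,
      ← Finset.mul_sum, ← Finset.sum_mul, hp.sum_one]
    have : ∑ ω, p ω * Real.sqrt (f ω) = m := rfl
    rw [this]
    ring
  refine (le_abs_self m).trans (Real.abs_le_sqrt ?_)
  linarith

/-- The sum of square roots. -/
lemma sum_sqrt (N : ℕ) (f : ℕ → ℝ) (M : ℝ) (hf : ∀ r, 0 ≤ f r)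
    (h : ∑ r ∈ Finset.range N, f r ≤ M) :
    ∑ r ∈ Finset.range N, Real.sqrt (f r) ≤ Real.sqrt (N * M) := by
  refine (le_abs_self _).trans (Real.abs_le_sqrt ?_)
  refine (sq_sum_le_card_mul_sum_sq (s := Finset.range N) (f := fun r => Real.sqrt (f r))).trans ?_
  rw [Finset.card_range]
  refine mul_le_mul_of_nonneg_left ?_ (Nat.cast_nonneg N)
  refine (Finset.sum_le_sum fun r _ => (Real.sq_sqrt (hf r)).le).trans h

end B2

theorem kv2b_thm (h2A : KV2AStmt) (hCEX : CEXStmt) (hIDX : IDXStmt) (hSMA : SMAStmt)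
    (hPIZ : PIZStmt) (hZOM : ZOMStmt) : KV2BStmt := by
  intro d
  obtain ⟨C₁, hC₁, hA⟩ := h2A d
  obtain ⟨C₂, hC₂, hS⟩ := hSMA d
  obtain ⟨C₃, hC₃, hP⟩ := hPIZ d
  refine ⟨C₁ + C₂ + C₃, by positivity, ?_⟩
  intro Ω β _ p X Y b g k N v lam ρ hp hX hg hρ hρ1 hAd
  have hlog : 0 ≤ Real.log (1 / ρ) := Real.log_nonneg (by rw [le_div_iff₀ hρ]; linarith)
  have hd0 : (0 : ℝ) ≤ (d : ℝ) * Real.log (1 / ρ) := by positivity
  -- the mutual informations of the blocks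
  set I : ℕ → ℝ := fun r => MI p (Fl X ((r + 1) * k)) (Fl Y ((r + 1) * k)) (ctx b X Y k r)
    with hI
  set M : ℝ := MI p (Fl X (N * k)) (Fl Y (N * k)) b with hM
  obtain ⟨hI0, hIs⟩ := hIDX d Ω β p X Y b k N hp
  have hM0 : 0 ≤ M := (Finset.sum_nonneg fun r _ => hI0 r).trans hIs
  have hSm := hS Ω β p X Y b k N hp hX
  -- one block
  have blk : ∀ r : ℕ, Ex p (fun ω => ∑ j ∈ Finset.Icc g k,
      max 0 ((big ρ (lam r (ctx b X Y k r ω) j)).card * (g * Real.log 2) -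
        loc (cond p (ctx b X Y k r) (ctx b X Y k r ω)) (v r (ctx b X Y k r ω) j)
          (big ρ (lam r (ctx b X Y k r ω) j)) (zo (r * k) X) j g)) ≤
      g * 4 ^ g * ((CH p (Fl (ad X Y) ((r + 1) * k)) (ctx b X Y k r) -
        CH p (Fl X ((r + 1) * k)) (ctx b X Y k r)) + (C₁ + C₃) +
          C₃ * (k + 1) * Real.sqrt (I r)) + (k + g) * (d * Real.log (1 / ρ) + C₁) := by
    intro r
    set c : Ω → β × (Fin d → ℤ) × (Fin d → ℤ) := ctx b X Y k r with hc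
    set q : Ω → Ω → ℝ := fun ω => cond p c (c ω) with hq
    set J : Ω → ℝ := fun ω => H (q ω) (Fl X ((r + 1) * k)) + H (q ω) (Fl Y ((r + 1) * k)) -
      H (q ω) (fun ω' => (Fl X ((r + 1) * k) ω', Fl Y ((r + 1) * k) ω')) with hJ
    have hql : ∀ ω, 0 < p ω → IsLaw (q ω) := fun ω hω =>
      (hCEX Ω Unit _ p (fun _ => ()) c hp).2 ω hω
    have hJ0 : ∀ ω, 0 < p ω → 0 ≤ J ω := by
      intro ω hω
      have h := subadd (hql ω hω).nonneg (hql ω hω).sum_one (X := Fl X ((r + 1) * k))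
        (Y := Fl Y ((r + 1) * k))
        (W := fun ω' => (Fl X ((r + 1) * k) ω', Fl Y ((r + 1) * k) ω')) (fun _ _ _ _ e => e)
      simp only [hJ]
      linarith
    have hpt : ∀ ω, 0 < p ω → ∑ j ∈ Finset.Icc g k,
        max 0 ((big ρ (lam r (c ω) j)).card * (g * Real.log 2) -
          loc (cond p c (c ω)) (v r (c ω) j) (big ρ (lam r (c ω) j)) (zo (r * k) X) j g) ≤
        g * 4 ^ g * ((H (q ω) (Fl (ad X Y) ((r + 1) * k)) - H (q ω) (Fl X ((r + 1) * k))) +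
          (C₁ + C₃) + C₃ * (k + 1) * Real.sqrt (J ω)) + (k + g) * (d * Real.log (1 / ρ) + C₁) := by
      intro ω hω
      have hl := hql ω hω
      have h1 := (hA Ω Ω (q ω) (q ω) (zo (r * k) X) (zo (r * k) Y) g k (v r (c ω)) (lam r (c ω)) ρ
        hl hl hg hρ hρ1 (fun j => hAd r ω j hω)).2
      have hzo : ∀ (x : Ω → Fin d → ℝ) (ω' : Ω) (i : Fin d),
          0 ≤ zo (r * k) x ω' i ∧ zo (r * k) x ω' i < 1 := fun x ω' i =>
        ⟨Int.fract_nonneg _, Int.fract_lt_one _⟩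
      have h2 := hP Ω (q ω) (zo (r * k) X) (zo (r * k) Y) k hl (hzo X) (hzo Y)
      have hcc : ∀ ω₁ ω₂, 0 < q ω ω₁ → 0 < q ω ω₂ → c ω₁ = c ω₂ := by
        intro ω₁ ω₂ h₁ h₂
        rw [((cond_pos_iff hp.nonneg c (c ω) ω₁).mp h₁).2,
          ((cond_pos_iff hp.nonneg c (c ω) ω₂).mp h₂).2]
      have h3 := hZOM d Ω (q ω) X Y (r * k) k hl
        (fun ω₁ ω₂ h₁ h₂ => (Prod.ext_iff.mp (Prod.ext_iff.mp (hcc ω₁ ω₂ h₁ h₂)).2).1)
        (fun ω₁ ω₂ h₁ h₂ => (Prod.ext_iff.mp (Prod.ext_iff.mp (hcc ω₁ ω₂ h₁ h₂)).2).2)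
      obtain ⟨z1, z2, z3, z4⟩ := h3
      have e : r * k + k = (r + 1) * k := by ring
      rw [e] at z1 z2 z3 z4
      rw [z1, z2, z3, z4] at h2
      rw [z1] at h1
      refine h1.trans ?_
      refine add_le_add ?_ le_rfl
      refine mul_le_mul_of_nonneg_left ?_ (by positivity)
      simp only [hJ]
      linarith
    refine (Ex_mono hp.nonneg hpt).trans ?_
    have e1 : Ex p (fun ω => g * 4 ^ g * ((H (q ω) (Fl (ad X Y) ((r + 1) * k)) -
          H (q ω) (Fl X ((r + 1) * k))) + (C₁ + C₃) + C₃ * (k + 1) * Real.sqrt (J ω)) +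
          (k + g) * (d * Real.log (1 / ρ) + C₁)) =
        g * 4 ^ g * ((Ex p (fun ω => H (q ω) (Fl (ad X Y) ((r + 1) * k))) -
          Ex p (fun ω => H (q ω) (Fl X ((r + 1) * k)))) + (C₁ + C₃) +
            C₃ * (k + 1) * Ex p (fun ω => Real.sqrt (J ω))) +
          (k + g) * (d * Real.log (1 / ρ) + C₁) := by
      rw [Ex_add, Ex_const hp.sum_one, Ex_smul, Ex_add, Ex_add, Ex_sub, Ex_const hp.sum_one,
        Ex_smul]
    rw [e1, ← (hCEX Ω _ _ p (Fl (ad X Y) ((r + 1) * k)) c hp).1,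
      ← (hCEX Ω _ _ p (Fl X ((r + 1) * k)) c hp).1]
    refine add_le_add ?_ le_rfl
    refine mul_le_mul_of_nonneg_left ?_ (by positivity)
    refine add_le_add le_rfl ?_
    refine mul_le_mul_of_nonneg_left ?_ (by positivity)
    refine (B2.ex_sqrt hp J hJ0).trans (Real.sqrt_le_sqrt (le_of_eq ?_))
    simp only [hI, MI, hJ]
    rw [(hCEX Ω _ _ p (Fl X ((r + 1) * k)) c hp).1, (hCEX Ω _ _ p (Fl Y ((r + 1) * k)) c hp).1,
      (hCEX Ω _ _ p (fun ω => (Fl X ((r + 1) * k) ω, Fl Y ((r + 1) * k) ω)) c hp).1, Ex_sub,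
      Ex_add]
  refine (Finset.sum_le_sum fun r _ => blk r).trans ?_
  rw [Finset.sum_add_distrib, ← Finset.mul_sum, Finset.sum_add_distrib, Finset.sum_add_distrib,
    ← Finset.mul_sum, Finset.sum_const, Finset.sum_const, Finset.card_range, nsmul_eq_mul,
    nsmul_eq_mul]
  have s1 := B2.sum_sqrt N I M hI0 hIs
  have s0 : 0 ≤ Real.sqrt (N * M) := Real.sqrt_nonneg _
  have hk0 : (0 : ℝ) ≤ k := Nat.cast_nonneg k
  have hg0 : (0 : ℝ) ≤ g := Nat.cast_nonneg g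
  have hN0 : (0 : ℝ) ≤ N := Nat.cast_nonneg N
  refine add_le_add ?_ ?_
  · refine mul_le_mul_of_nonneg_left ?_ (by positivity)
    have s2 : C₃ * (k + 1) * ∑ r ∈ Finset.range N, Real.sqrt (I r) ≤
        (C₁ + C₂ + C₃) * (k + 1) * Real.sqrt (N * M) := by
      refine mul_le_mul ?_ s1 (Finset.sum_nonneg fun r _ => Real.sqrt_nonneg _) (by positivity)
      refine mul_le_mul_of_nonneg_right ?_ (by positivity)
      linarith
    have s3 : (N : ℝ) * (C₁ + C₃) + C₂ * (N + 1) ≤ (C₁ + C₂ + C₃) * (N + 1) := by nlinarith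
    linarith
  · refine mul_le_mul_of_nonneg_left ?_ hN0
    refine mul_le_mul_of_nonneg_left ?_ (by positivity)
    linarith

end Pool.KVA
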