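import Pool.Agent.H54.KVA.Defs2
import Pool.Agent.H93.KVA.Var

/-!
# The inverse theorem in dimension one
-/

set_option autoImplicit false

namespace Pool.KVA

open Finset Real MeasureTheory
open Pool.Agent.H49.Ent Pool.Agent.H32.Dense Pool.STK

/-- The integer part at scale `2 ^ (-j)`. -/
noncomputable def f1 {Ω : Type} (X : Ω → ℝ) (j : ℕ) (ω : Ω) : ℤ := ⌊2 ^ j * X ω⌋

/-- The mean conditional variance of `2 ^ j Y` given the first `j` digits of `Y`. -/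
noncomputable def v1 {Ω : Type} [Fintype Ω] (p : Ω → ℝ) (Y : Ω → ℝ) (j : ℕ) : ℝ :=
  cVar p (fun ω => 2 ^ j * Y ω) (f1 Y j)

/-- The inverse theorem in dimension one. -/
def KVD1Stmt : Prop :=
  ∃ C ≥ 0, ∀ (Ω₁ Ω₂ : Type) [Fintype Ω₁] [Fintype Ω₂] (p₁ : Ω₁ → ℝ) (p₂ : Ω₂ → ℝ)
    (X : Ω₁ → ℝ) (Y : Ω₂ → ℝ) (g k : ℕ) (ρ : ℝ), IsLaw p₁ → IsLaw p₂ → 1 ≤ g → 0 < ρ → ρ ≤ 1 →
    0 ≤ H (pr2 p₁ p₂) (f1 (fun w => X w.1 + Y w.2) k) - H p₁ (f1 X k) + C ∧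
    (∑ j ∈ Finset.Icc g k, open Classical in if ρ ^ 2 ≤ v1 p₂ Y j then
        max 0 (g * Real.log 2 - CH p₁ (f1 X j) (f1 X (j - g))) else 0) ≤
      g * 4 ^ g * (H (pr2 p₁ p₂) (f1 (fun w => X w.1 + Y w.2) k) - H p₁ (f1 X k) + C) +
        (k + g) * (Real.log (1 / ρ) + C)

namespace D1

/-- A function as a vector with one coordinate. -/
def vec {Ω : Type} (X : Ω → ℝ) (ω : Ω) (_ : Fin 1) : ℝ := X ω

lemma on1 : ON (fun (_ _ : Fin 1) => (1 : ℝ)) := by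
  intro i j
  rw [if_pos (Subsingleton.elim i j)]
  simp [ip]

lemma fl_vec {Ω : Type} (X : Ω → ℝ) (j : ℕ) (ω : Ω) : Fl (vec X) j ω = fun _ => f1 X j ω := by
  funext i
  rfl

lemma fl_iff {Ω : Type} (X : Ω → ℝ) (j : ℕ) (ω ω' : Ω) :
    Fl (vec X) j ω = Fl (vec X) j ω' ↔ f1 X j ω = f1 X j ω' := by
  rw [fl_vec, fl_vec]
  constructor
  · intro h
    exact congrFun h 0
  · intro h
    rw [h]

lemma ip_one (x : Fin 1 → ℝ) : ip (fun _ : Fin 1 => (1 : ℝ)) x = x 0 := by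
  simp [ip]

lemma H_vec {Ω : Type} [Fintype Ω] {p : Ω → ℝ} (hp : ∀ ω, 0 ≤ p ω) (X : Ω → ℝ) (j : ℕ) :
    H p (Fl (vec X) j) = H p (f1 X j) :=
  H_congr hp (fun ω ω' _ _ h => (fl_iff X j ω ω').mpr h) (fun ω ω' _ _ h => (fl_iff X j ω ω').mp h)

lemma cVar_congr {Ω T T' : Type} [Fintype Ω] (p : Ω → ℝ) (f : Ω → ℝ) (Z : Ω → T) (Z' : Ω → T')
    (h : ∀ ω ω', Z ω = Z ω' ↔ Z' ω = Z' ω') : cVar p f Z = cVar p f Z' := by
  classical
  have e : ∀ ω, cond p Z (Z ω) = cond p Z' (Z' ω) := by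
    intro ω
    funext ω'
    unfold Pool.Agent.H49.Ent.cond
    have e1 : law p Z (Z ω) = law p Z' (Z' ω) := by
      unfold law
      refine Finset.sum_congr rfl fun ω'' _ => ?_
      by_cases h' : Z ω'' = Z ω
      · rw [if_pos h', if_pos ((h _ _).mp h')]
      · rw [if_neg h', if_neg (fun h'' => h' ((h _ _).mpr h''))]
    by_cases h' : Z ω' = Z ω
    · rw [if_pos h', if_pos ((h _ _).mp h'), e1]
    · rw [if_neg h', if_neg (fun h'' => h' ((h _ _).mpr h''))]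
  unfold cVar
  refine Finset.sum_congr rfl fun ω _ => ?_
  beta_reduce
  rw [e]

lemma Var_smul {Ω : Type} [Fintype Ω] (p : Ω → ℝ) (c : ℝ) (f : Ω → ℝ) :
    Var p (fun ω => c * f ω) = c ^ 2 * Var p f := by
  unfold Var
  have e1 : Ex p (fun ω => (c * f ω) ^ 2) = c ^ 2 * Ex p (fun ω => f ω ^ 2) := by
    rw [← Ex_smul]
    unfold Ex
    refine Finset.sum_congr rfl fun ω _ => by ring
  rw [e1, Ex_smul]
  ring

lemma cVar_smul {Ω T : Type} [Fintype Ω] (p : Ω → ℝ) (c : ℝ) (f : Ω → ℝ) (Z : Ω → T) :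
    cVar p (fun ω => c * f ω) Z = c ^ 2 * cVar p f Z := by
  unfold cVar
  rw [← Ex_smul]
  unfold Ex
  refine Finset.sum_congr rfl fun ω _ => ?_
  beta_reduce
  rw [Var_smul]

lemma adp {Ω : Type} [Fintype Ω] {p : Ω → ℝ} (hp : IsLaw p) (Y : Ω → ℝ) (j : ℕ) :
    Adp p (vec Y) j (fun _ _ => 1) (fun _ => v1 p Y j) := by
  refine ⟨on1, fun _ => ?_, fun η => ?_⟩
  · unfold v1
    rw [← cVar_eq hp.nonneg]
    exact Ex_nonneg hp.nonneg fun ω _ => sq_nonneg _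
  · have e : (fun ω => (2 : ℝ) ^ j * ip (lc (fun _ _ => (1 : ℝ)) η) (vec Y ω)) =
        fun ω => η 0 * ((2 : ℝ) ^ j * Y ω) := by
      funext ω
      simp [ip, lc, vec]
      ring
    rw [e, cVar_smul, cVar_congr p _ (Fl (vec Y) j) (f1 Y j) (fl_iff Y j)]
    simp [v1]
    ring

lemma loc_vec {Ω : Type} [Fintype Ω] {p : Ω → ℝ} (hp : ∀ ω, 0 ≤ p ω) (X : Ω → ℝ) (j g : ℕ) :
    loc p (fun _ _ : Fin 1 => (1 : ℝ)) univ (vec X) j g = CH p (f1 X j) (f1 X (j - g)) := by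
  have e : ∀ ω, prj (fun _ _ : Fin 1 => (1 : ℝ)) univ (vec X) j ω = fun _ => f1 X j ω := by
    intro ω
    funext i
    unfold prj
    rw [if_pos (Finset.mem_univ i), ip_one]
    rfl
  have e2 : ∀ ω, prj (fun _ _ : Fin 1 => (1 : ℝ)) (univᶜ) (vec X) j ω = fun _ => 0 := by
    intro ω
    funext i
    unfold prj
    rw [if_neg (fun h => (Finset.mem_compl.mp h) (Finset.mem_univ i))]
  unfold loc
  refine CH_congr hp ?_ ?_ ?_ ?_
  · intro ω ω' _ _ h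
    have h1 := (Prod.ext_iff.mp h).1
    simp only at h1
    rw [e, e] at h1
    exact congrFun h1 0
  · intro ω ω' _ _ h
    have h1 := (Prod.ext_iff.mp h).1
    simp only at h1
    rw [e, e, h1]
  · intro ω ω' _ _ h
    exact (fl_iff X (j - g) ω ω').mp (Prod.ext_iff.mp h).2
  · intro ω ω' _ _ h
    simp only [Prod.mk.injEq]
    refine ⟨?_, (fl_iff X (j - g) ω ω').mpr h⟩
    rw [e2, e2]

end D1

open D1 in
theorem d1_thm (h2A : KV2AStmt) : KVD1Stmt := by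
  obtain ⟨C, hC, hA⟩ := h2A 1
  refine ⟨C, hC, ?_⟩
  intro Ω₁ Ω₂ _ _ p₁ p₂ X Y g k ρ hp₁ hp₂ hg hρ hρ1
  have h := hA Ω₁ Ω₂ p₁ p₂ (vec X) (vec Y) g k (fun _ _ _ => 1) (fun j _ => v1 p₂ Y j) ρ
    hp₁ hp₂ hg hρ hρ1 (fun j => adp hp₂ Y j)
  have hn : ∀ w, 0 ≤ pr2 p₁ p₂ w := fun w => mul_nonneg (hp₁.nonneg _) (hp₂.nonneg _)
  have e1 : H (pr2 p₁ p₂) (Fl (Ad (vec X) (vec Y)) k) =
      H (pr2 p₁ p₂) (f1 (fun w => X w.1 + Y w.2) k) := H_vec hn (fun w => X w.1 + Y w.2) k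
  rw [e1, H_vec hp₁.nonneg, Nat.cast_one, one_mul] at h
  refine ⟨h.1, le_trans (Finset.sum_le_sum fun j _ => ?_) h.2⟩
  by_cases hr : ρ ^ 2 ≤ v1 p₂ Y j
  · have eb : big ρ (fun _ : Fin 1 => v1 p₂ Y j) = univ := by
      unfold big
      rw [Finset.filter_true_of_mem fun _ _ => hr]
    rw [if_pos hr, eb, loc_vec hp₁.nonneg]
    simp
  · rw [if_neg hr]
    exact le_max_left _ _

end Pool.KVA
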