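import Pool.Agent.H54.KVA.Defs
import Pool.Agent.H58.STK.Base
import Pool.Agent.H40.STK.PRD
import Pool.Agent.H72.STK.PR2

/-!
# The inequality at one row
-/

set_option autoImplicit false

namespace Pool.KVA

open Finset Real MeasureTheory
open Pool.Agent.H49.Ent Pool.Agent.H32.Dense Pool.STK

namespace ROW

/-- The entropy of some rows as a conditional entropy. -/
lemma inc_eq {Ω : Type} [Fintype Ω] {d : ℕ} {p : Ω → ℝ} (hp : ∀ ω, 0 ≤ p ω) (X : Ω → Fin d → ℝ)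
    (j g : ℕ) : inc p X j g = CH p (Fl X j) (Fl X (j - g)) := by
  unfold inc CH
  congr 1
  refine H_congr hp ?_ ?_
  · intro ω ω' _ _ h
    exact (Prod.ext_iff.mp h).1
  · intro ω ω' _ _ h
    exact Prod.ext h (B58.Fl_fine X (Nat.sub_le j g) h)

end ROW

theorem row_thm (hLOW : LOWStmt) (hUPP : UPPStmt) (hPRJ : PRJStmt) (hT2 : T2Stmt) : ROWStmt := by
  intro d
  obtain ⟨Cl, hCl, hL⟩ := hLOW d
  obtain ⟨Cu, hCu, hU⟩ := hUPP d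
  obtain ⟨Cp, hCp, hP⟩ := hPRJ d
  obtain ⟨Ct, hCt, hT⟩ := hT2 d
  refine ⟨3 * Cp + Ct + Cl + 2 * Cu, by positivity, ?_⟩
  intro Ω₁ Ω₂ _ _ p₁ p₂ X Y g j v lam ρ hp₁ hp₂ hg hρ hρ1 hA
  have hn : IsLaw (prd p₂ : (Fin (4 ^ g) → Ω₂) → ℝ) := (prd_thm Ω₂ (Fin (4 ^ g)) Unit p₂ hp₂).1
  have hps : IsLaw (ps p₁ p₂ (4 ^ g)) :=
    (pr2_thm Ω₁ (Fin (4 ^ g) → Ω₂) Unit Unit p₁ (prd p₂) hp₁ hn).1
  set P : Ω₁ × (Fin (4 ^ g) → Ω₂) → ℝ := ps p₁ p₂ (4 ^ g) with hPdef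
  set T : Ω₁ × (Fin (4 ^ g) → Ω₂) → Fin d → ℝ := Sm (4 ^ g) X Y with hTdef
  set S : Finset (Fin d) := big ρ lam with hS
  set c : Ω₁ × (Fin (4 ^ g) → Ω₂) → Ω₁ × (Fin (4 ^ g) → Fin d → ℤ) := cx Y j with hc
  have h0 : ∀ w, 0 ≤ P w := hps.nonneg
  -- the increments
  rw [ROW.inc_eq h0, ROW.inc_eq hp₁.nonneg]
  have f2 := hP (Ω₁ × (Fin (4 ^ g) → Ω₂)) (Fin d → ℤ) P T (Fl T (j - g)) j v S hps hA.on
  have f3 := CH_chain h0 (prj v S T j) (prj v Sᶜ T j) (Fl T (j - g))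
  have f4 : CH p₁ (prj v Sᶜ X j) (Fl X (j - g)) - Ct ≤ CH P (prj v Sᶜ T j) (Fl T (j - g)) :=
    (hT Ω₁ (Fin (4 ^ g) → Ω₂) p₁ (prd p₂) X (fun w i => ∑ l, Y (w l) i) j (j - g) v Sᶜ
      hp₁ hn hA.on (Nat.sub_le _ _)).2.2
  -- the second term
  have f5 : CH P (prj v S T j) (fun ω => ((prj v Sᶜ T j ω, Fl T (j - g) ω), c ω)) ≤
      CH P (prj v S T j) (fun ω => (prj v Sᶜ T j ω, Fl T (j - g) ω)) :=
    CH_mono_cond h0 (fun ω ω' _ _ h => (Prod.ext_iff.mp h).1)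
  have f6 := CH_chain h0 (prj v S T j) (fun ω => (prj v Sᶜ T j ω, Fl T (j - g) ω)) c
  have f7 : CH P (fun ω => (prj v S T j ω, prj v Sᶜ T j ω)) c ≤
      CH P (fun ω => (prj v S T j ω, (prj v Sᶜ T j ω, Fl T (j - g) ω))) c :=
    CH_mono_left h0 (fun ω ω' _ _ h => by
      simp only [Prod.mk.injEq] at h ⊢
      exact ⟨h.1.1, h.1.2.1⟩)
  have f8 := CH_subadd h0 (prj v Sᶜ T j) (Fl T (j - g)) c
  have f9 := hP (Ω₁ × (Fin (4 ^ g) → Ω₂)) _ P T c j v S hps hA.on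
  have f10 := hL Ω₁ Ω₂ p₁ p₂ X Y (4 ^ g) j v lam hp₁ hp₂ hA
  have f11 := hU Ω₁ Ω₂ p₁ p₂ X Y g j v lam Sᶜ hp₁ hp₂ hg hA
  have f12 := hP Ω₁ (Fin d → ℤ) p₁ X (Fl X (j - g)) j v S hp₁ hA.on
  have f13 := CH_chain hp₁.nonneg (prj v S X j) (prj v Sᶜ X j) (Fl X (j - g))
  -- the sum over the large directions
  have hsum : ∑ i, 1 / 2 * Real.log (1 + ((4 ^ g : ℕ) : ℝ) * lam i) =
      ∑ i ∈ S, 1 / 2 * Real.log (1 + ((4 ^ g : ℕ) : ℝ) * lam i) +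
        ∑ i ∈ Sᶜ, 1 / 2 * Real.log (1 + ((4 ^ g : ℕ) : ℝ) * lam i) :=
    (Finset.sum_add_sum_compl S _).symm
  have hbig : (S.card : ℝ) * (g * Real.log 2 - Real.log (1 / ρ)) ≤
      ∑ i ∈ S, 1 / 2 * Real.log (1 + ((4 ^ g : ℕ) : ℝ) * lam i) := by
    rw [← nsmul_eq_mul]
    refine Finset.card_nsmul_le_sum _ _ _ fun i hi => ?_
    have hi' : ρ ^ 2 ≤ lam i := by
      rw [hS] at hi
      exact (Finset.mem_filter.mp hi).2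
    have e1 : (2 ^ g * ρ) ^ 2 ≤ 1 + ((4 ^ g : ℕ) : ℝ) * lam i := by
      push_cast
      have : (4 : ℝ) ^ g = (2 ^ g) ^ 2 := by
        rw [← pow_mul, mul_comm, pow_mul]
        norm_num
      rw [this, mul_pow]
      nlinarith [mul_le_mul_of_nonneg_left hi' (by positivity : (0 : ℝ) ≤ (2 ^ g) ^ 2)]
    have e2 := Real.log_le_log (by positivity) e1
    rw [Real.log_pow, Real.log_mul (by positivity) hρ.ne', Real.log_pow] at e2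
    rw [one_div, Real.log_inv]
    push_cast at e2 ⊢
    linarith
  unfold loc
  push_cast at hsum hbig f10
  rw [abs_le] at f2 f9 f12
  linarith [f11.1, f11.2, f2.1, f2.2, f9.1, f9.2, f12.1, f12.2]

end Pool.KVA
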