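import Pool.Agent.H54.KVA.A2
import Pool.Agent.H54.KVA.ROW
import Pool.Agent.H54.KVA.B2
import Pool.Agent.H54.KVA.D1
import Pool.Agent.H12.KVA.EIG
import Pool.Agent.H12.KVA.ESS
import Pool.Agent.H40.KVA.CHF
import Pool.Agent.H87.KVA.GAU
import Pool.Agent.H87.KVA.LOW
import Pool.Agent.H81.KVA.MAXP
import Pool.Agent.H81.KVA.UPP
import Pool.Agent.H93.KVA.UP1
import Pool.Agent.H93.KVA.VSM
import Pool.Agent.H98.KVA.BVR
import Pool.Agent.H33.KVA.PRJ
import Pool.Agent.H95.KVA.T2
import Pool.Agent.H98.KVA.KVN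
import Pool.Agent.H58.KVA.CEX
import Pool.Agent.H98.KVA.IDX
import Pool.Agent.H98.KVA.SMA
import Pool.Agent.H28.KVA.PIN
import Pool.Agent.H28.KVA.PIZ
import Pool.Agent.H40.KVA.ZOM

/-!
# The inverse theorem for sums of vectors: assembly
-/

set_option autoImplicit false

namespace Pool.KVA

theorem low : LOWStmt := low_thm chf_thm ess_thm gau_thm maxp_thm

theorem upp : UPPStmt := upp_thm up1_thm vsm_thm bvr_thm

theorem row : ROWStmt := row_thm low upp Pool.Agent.H33.KVA.prj_thm t2_thm

/-- The inverse theorem for independent vectors. -/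
theorem kv2a : KV2AStmt := kv2a_thm row t2_thm kvn_thm

/-- The inverse theorem in dimension one. -/
theorem kvd1 : KVD1Stmt := d1_thm kv2a

/-- The inverse theorem with side information and approximate independence. -/
theorem kv2b : KV2BStmt := kv2b_thm kv2a cex_thm idx_thm sma_thm (piz_thm pin_thm) zom_thm

end Pool.KVA
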