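import Pool.Agent.H90.STK.Stmts

/-!
# Inverse theorem for sums of independent vectors (block form): definitions and statements

`X` and `Y` are independent random vectors in `ℝ ^ d` on finite probability spaces. If adding `Y`
to `X` increases the entropy of the first `k` binary digits little, then at most rows `j` the
digits of `X` in the row `j` are saturated in the directions in which the digits of `Y` after the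
row `j` have a large mean conditional variance.
-/

set_option autoImplicit false

namespace Pool.KVA

open Finset Real MeasureTheory
open Pool.Agent.H49.Ent Pool.Agent.H32.Dense Pool.STK

/-- Scalar product. -/
def ip {d : ℕ} (v x : Fin d → ℝ) : ℝ := ∑ i, v i * x i

/-- Orthonormal basis. -/
def ON {d : ℕ} (v : Fin d → Fin d → ℝ) : Prop :=
  ∀ i j, ip (v i) (v j) = if i = j then 1 else 0

/-- Linear combination. -/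
def lc {d : ℕ} (v : Fin d → Fin d → ℝ) (η : Fin d → ℝ) : Fin d → ℝ := fun l => ∑ i, η i * v i l

/-- Variance. -/
noncomputable def Var {Ω : Type} [Fintype Ω] (p : Ω → ℝ) (f : Ω → ℝ) : ℝ :=
  Ex p (fun ω => f ω ^ 2) - Ex p f ^ 2

/-- Mean conditional variance. -/
noncomputable def cVar {Ω T : Type} [Fintype Ω] (p : Ω → ℝ) (f : Ω → ℝ) (Z : Ω → T) : ℝ :=
  Ex p (fun ω => Var (cond p Z (Z ω)) f)

/-- The basis `v` is adapted to the row `j` of `Y`: in this basis the mean conditional covariance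
matrix of `2 ^ j Y` given the first `j` digits of `Y` is diagonal, with entries `lam`. -/
structure Adp {Ω : Type} [Fintype Ω] {d : ℕ} (p : Ω → ℝ) (Y : Ω → Fin d → ℝ) (j : ℕ)
    (v : Fin d → Fin d → ℝ) (lam : Fin d → ℝ) : Prop where
  on : ON v
  nonneg : ∀ i, 0 ≤ lam i
  diag : ∀ η : Fin d → ℝ,
    cVar p (fun ω => 2 ^ j * ip (lc v η) (Y ω)) (Fl Y j) = ∑ i, lam i * η i ^ 2

/-- The law of a sample and of `n` independent samples. -/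
noncomputable def ps {Ω₁ Ω₂ : Type} (p₁ : Ω₁ → ℝ) (p₂ : Ω₂ → ℝ) (n : ℕ) :
    Ω₁ × (Fin n → Ω₂) → ℝ := pr2 p₁ (prd p₂)

/-- The sum of `X` and of `n` independent copies of `Y`. -/
noncomputable def Sm {Ω₁ Ω₂ : Type} {d : ℕ} (n : ℕ) (X : Ω₁ → Fin d → ℝ) (Y : Ω₂ → Fin d → ℝ)
    (w : Ω₁ × (Fin n → Ω₂)) : Fin d → ℝ := fun i => X w.1 i + ∑ l, Y (w.2 l) i

/-- The sum of two independent vectors. -/
def Ad {Ω₁ Ω₂ : Type} {d : ℕ} (X : Ω₁ → Fin d → ℝ) (Y : Ω₂ → Fin d → ℝ) (w : Ω₁ × Ω₂) :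
    Fin d → ℝ := fun i => X w.1 i + Y w.2 i

/-- The first digits and the digits of the `n` copies. -/
noncomputable def cx {Ω₁ Ω₂ : Type} {d n : ℕ} (Y : Ω₂ → Fin d → ℝ) (j : ℕ)
    (w : Ω₁ × (Fin n → Ω₂)) : Ω₁ × (Fin n → Fin d → ℤ) := (w.1, fun l => Fl Y j (w.2 l))

/-- The rounded coordinates with index in `S` in the basis `v`. -/
noncomputable def prj {Ω : Type} {d : ℕ} (v : Fin d → Fin d → ℝ) (S : Finset (Fin d))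
    (X : Ω → Fin d → ℝ) (j : ℕ) (ω : Ω) : Fin d → ℤ :=
  fun i => if i ∈ S then ⌊2 ^ j * ip (v i) (X ω)⌋ else 0

/-- The entropy of the rows `(j - g, j]` of `X` in the directions `v i`, `i ∈ S`, given the other
coordinates. -/
noncomputable def loc {Ω : Type} [Fintype Ω] {d : ℕ} (p : Ω → ℝ) (v : Fin d → Fin d → ℝ)
    (S : Finset (Fin d)) (X : Ω → Fin d → ℝ) (j g : ℕ) : ℝ :=
  CH p (prj v S X j) (fun ω => (prj v Sᶜ X j ω, Fl X (j - g) ω))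

/-- The entropy of the rows `(j - g, j]`. -/
noncomputable def inc {Ω : Type} [Fintype Ω] {d : ℕ} (p : Ω → ℝ) (X : Ω → Fin d → ℝ)
    (j g : ℕ) : ℝ := H p (Fl X j) - H p (Fl X (j - g))

/-- The directions in which the row is not concentrated. -/
noncomputable def big {d : ℕ} (ρ : ℝ) (lam : Fin d → ℝ) : Finset (Fin d) :=
  univ.filter fun i => ρ ^ 2 ≤ lam i

/-! ### Statements of the modules -/

/-- EIG. Existence of adapted bases. -/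
def EIGStmt : Prop :=
  ∀ (d : ℕ) (Ω : Type) [Fintype Ω] (p : Ω → ℝ) (Y : Ω → Fin d → ℝ) (j : ℕ), IsLaw p →
    ∃ (v : Fin d → Fin d → ℝ) (lam : Fin d → ℝ), Adp p Y j v lam

/-- CHF. Characteristic functions. -/
def CHFStmt : Prop :=
  ∀ (Ω T : Type) [Fintype Ω] (p : Ω → ℝ) (f : Ω → ℝ) (Z : Ω → T), IsLaw p →
    (∀ ω ω', 0 < p ω → 0 < p ω' → Z ω = Z ω' → |f ω - f ω'| ≤ 1) →
    Ex p (fun ω => ‖∑ ω', ((cond p Z (Z ω) ω' : ℝ) : ℂ) * Complex.exp (Complex.I * (f ω' : ℂ))‖) ≤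
      Real.exp (-(cVar p f Z) / 4)

/-- The cube of side `1 / (d + 1)`. -/
def cube (d : ℕ) : Set (Fin d → ℝ) := Set.pi Set.univ fun _ => Set.Icc 0 (1 / ((d : ℝ) + 1))

/-- ESS. Esseen's inequality: a cell has small probability if the characteristic function is
small. -/
def ESSStmt : Prop :=
  ∀ d : ℕ, ∃ C > 0, ∀ (Ω : Type) [Fintype Ω] (p : Ω → ℝ) (Z : Ω → Fin d → ℝ)
    (v : Fin d → Fin d → ℝ) (z : Fin d → ℤ), IsLaw p → ON v →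
    law p (fun ω => rd (Z ω)) z ≤ C * ∫ η in cube d ×ˢ cube d,
      ‖∑ ω, ((p ω : ℝ) : ℂ) * Complex.exp (Complex.I * (ip (lc v (η.1 - η.2)) (Z ω) : ℝ))‖

/-- GAU. The Gaussian integral. -/
def GAUStmt : Prop :=
  ∀ d : ℕ, ∃ C > 0, ∀ a : Fin d → ℝ, (∀ i, 0 ≤ a i) →
    ∫ η in cube d ×ˢ cube d, Real.exp (-(∑ i, a i * (η.1 i - η.2 i) ^ 2) / 4) ≤
      C * ∏ i, (1 + a i) ^ (-(1 / 2 : ℝ))

/-- MAXP. The entropy is at least the mean logarithm of the largest probability. -/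
def MAXPStmt : Prop :=
  ∀ (Ω S T : Type) [Fintype Ω] (p : Ω → ℝ) (X : Ω → S) (Z : Ω → T) (B : T → ℝ), IsLaw p →
    (∀ ω, 0 < p ω → ∀ x, law (cond p Z (Z ω)) X x ≤ B (Z ω)) →
    -Real.log (Ex p (fun ω => B (Z ω))) ≤ CH p X Z

/-- LOW. Lower bound for the entropy of the sum. -/
def LOWStmt : Prop :=
  ∀ d : ℕ, ∃ C ≥ 0, ∀ (Ω₁ Ω₂ : Type) [Fintype Ω₁] [Fintype Ω₂] (p₁ : Ω₁ → ℝ) (p₂ : Ω₂ → ℝ)
    (X : Ω₁ → Fin d → ℝ) (Y : Ω₂ → Fin d → ℝ) (n j : ℕ) (v : Fin d → Fin d → ℝ)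
    (lam : Fin d → ℝ), IsLaw p₁ → IsLaw p₂ → Adp p₂ Y j v lam →
    ∑ i, 1 / 2 * Real.log (1 + n * lam i) - C ≤ CH (ps p₁ p₂ n) (Fl (Sm n X Y) j) (cx Y j)

/-- UP1. Upper bound for the entropy of an integer part by the variance. -/
def UP1Stmt : Prop :=
  ∃ C ≥ 0, ∀ (Ω T : Type) [Fintype Ω] (p : Ω → ℝ) (f : Ω → ℝ) (Z : Ω → T), IsLaw p →
    CH p (fun ω => ⌊f ω⌋) Z ≤ 1 / 2 * Real.log (1 + cVar p f Z) + C

/-- VSM. The conditional variance of a sum of independent variables. -/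
def VSMStmt : Prop :=
  ∀ (Ω₁ Ω₂ T : Type) [Fintype Ω₁] [Fintype Ω₂] (p₁ : Ω₁ → ℝ) (p₂ : Ω₂ → ℝ) (F : Ω₁ → ℝ)
    (f : Ω₂ → ℝ) (Z : Ω₂ → T) (n : ℕ), IsLaw p₁ → IsLaw p₂ →
    cVar (ps p₁ p₂ n) (fun w => F w.1 + ∑ l, f (w.2 l)) (fun w => (w.1, fun l => Z (w.2 l))) =
      n * cVar p₂ f Z

/-- BVR. Bounded variables have bounded variance. -/
def BVRStmt : Prop :=
  ∀ (Ω T : Type) [Fintype Ω] (p : Ω → ℝ) (f : Ω → ℝ) (Z : Ω → T) (L : ℝ), IsLaw p → 0 ≤ L →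
    (∀ ω ω', 0 < p ω → 0 < p ω' → Z ω = Z ω' → |f ω - f ω'| ≤ L) →
    0 ≤ cVar p f Z ∧ cVar p f Z ≤ L ^ 2

/-- UPP. Upper bounds for the entropies of the sum. -/
def UPPStmt : Prop :=
  ∀ d : ℕ, ∃ C ≥ 0, ∀ (Ω₁ Ω₂ : Type) [Fintype Ω₁] [Fintype Ω₂] (p₁ : Ω₁ → ℝ) (p₂ : Ω₂ → ℝ)
    (X : Ω₁ → Fin d → ℝ) (Y : Ω₂ → Fin d → ℝ) (g j : ℕ) (v : Fin d → Fin d → ℝ)
    (lam : Fin d → ℝ) (N : Finset (Fin d)), IsLaw p₁ → IsLaw p₂ → g ≤ j → Adp p₂ Y j v lam →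
    CH (ps p₁ p₂ (4 ^ g)) (Fl (Sm (4 ^ g) X Y) (j - g)) (cx Y j) ≤ C ∧
    CH (ps p₁ p₂ (4 ^ g)) (prj v N (Sm (4 ^ g) X Y) j) (cx Y j) ≤
      ∑ i ∈ N, 1 / 2 * Real.log (1 + 4 ^ g * lam i) + C

/-- PRJ. The digits and the coordinates in a basis. -/
def PRJStmt : Prop :=
  ∀ d : ℕ, ∃ C ≥ 0, ∀ (Ω T : Type) [Fintype Ω] (p : Ω → ℝ) (X : Ω → Fin d → ℝ) (Z : Ω → T)
    (j : ℕ) (v : Fin d → Fin d → ℝ) (S : Finset (Fin d)), IsLaw p → ON v →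
    |CH p (Fl X j) Z - CH p (fun ω => (prj v S X j ω, prj v Sᶜ X j ω)) Z| ≤ C

/-- T2. Sums have more local entropy. -/
def T2Stmt : Prop :=
  ∀ d : ℕ, ∃ C ≥ 0, ∀ (Ω₁ Ω₂ : Type) [Fintype Ω₁] [Fintype Ω₂] (p₁ : Ω₁ → ℝ) (p₂ : Ω₂ → ℝ)
    (X : Ω₁ → Fin d → ℝ) (Y : Ω₂ → Fin d → ℝ) (j j' : ℕ) (v : Fin d → Fin d → ℝ)
    (N : Finset (Fin d)), IsLaw p₁ → IsLaw p₂ → ON v → j' ≤ j →
    H p₁ (Fl X j) - C ≤ H (pr2 p₁ p₂) (Fl (Ad X Y) j) ∧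
    H p₁ (Fl X j) - H p₁ (Fl X j') - C ≤
      H (pr2 p₁ p₂) (Fl (Ad X Y) j) - H (pr2 p₁ p₂) (Fl (Ad X Y) j') ∧
    CH p₁ (prj v N X j) (Fl X j') - C ≤ CH (pr2 p₁ p₂) (prj v N (Ad X Y) j) (Fl (Ad X Y) j')

/-- KVN. Sums of independent copies. -/
def KVNStmt : Prop :=
  ∀ d : ℕ, ∃ C ≥ 0, ∀ (Ω₁ Ω₂ : Type) [Fintype Ω₁] [Fintype Ω₂] (p₁ : Ω₁ → ℝ) (p₂ : Ω₂ → ℝ)
    (X : Ω₁ → Fin d → ℝ) (Y : Ω₂ → Fin d → ℝ) (n k : ℕ), IsLaw p₁ → IsLaw p₂ →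
    H (ps p₁ p₂ n) (Fl (Sm n X Y) k) - H p₁ (Fl X k) ≤
      n * (H (pr2 p₁ p₂) (Fl (Ad X Y) k) - H p₁ (Fl X k) + C)

/-- ROW. The inequality at one row. -/
def ROWStmt : Prop :=
  ∀ d : ℕ, ∃ C ≥ 0, ∀ (Ω₁ Ω₂ : Type) [Fintype Ω₁] [Fintype Ω₂] (p₁ : Ω₁ → ℝ) (p₂ : Ω₂ → ℝ)
    (X : Ω₁ → Fin d → ℝ) (Y : Ω₂ → Fin d → ℝ) (g j : ℕ) (v : Fin d → Fin d → ℝ)
    (lam : Fin d → ℝ) (ρ : ℝ), IsLaw p₁ → IsLaw p₂ → g ≤ j → 0 < ρ → ρ ≤ 1 →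
    Adp p₂ Y j v lam →
    (big ρ lam).card * (g * Real.log 2 - Real.log (1 / ρ)) - loc p₁ v (big ρ lam) X j g ≤
      inc (ps p₁ p₂ (4 ^ g)) (Sm (4 ^ g) X Y) j g - inc p₁ X j g + C

/-- 2A. The inverse theorem for independent vectors. -/
def KV2AStmt : Prop :=
  ∀ d : ℕ, ∃ C ≥ 0, ∀ (Ω₁ Ω₂ : Type) [Fintype Ω₁] [Fintype Ω₂] (p₁ : Ω₁ → ℝ) (p₂ : Ω₂ → ℝ)
    (X : Ω₁ → Fin d → ℝ) (Y : Ω₂ → Fin d → ℝ) (g k : ℕ) (v : ℕ → Fin d → Fin d → ℝ)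
    (lam : ℕ → Fin d → ℝ) (ρ : ℝ), IsLaw p₁ → IsLaw p₂ → 1 ≤ g → 0 < ρ → ρ ≤ 1 →
    (∀ j, Adp p₂ Y j (v j) (lam j)) →
    0 ≤ H (pr2 p₁ p₂) (Fl (Ad X Y) k) - H p₁ (Fl X k) + C ∧
    ∑ j ∈ Finset.Icc g k, max 0 ((big ρ (lam j)).card * (g * Real.log 2) -
        loc p₁ (v j) (big ρ (lam j)) X j g) ≤
      g * 4 ^ g * (H (pr2 p₁ p₂) (Fl (Ad X Y) k) - H p₁ (Fl X k) + C) +
        (k + g) * (d * Real.log (1 / ρ) + C)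

end Pool.KVA
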